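import Pool.Agent.H23.S6E.C5
import Pool.Agent.H9.S6.H7R

/-!
# Closeness of two planks with the same lines: proof of `C5Stmt`
-/

set_option autoImplicit false

namespace Pool.S6V

open Finset Real
open Pool.Agent.H49.Ent Pool.Agent.H32.Dense Pool.STK Pool.KA Pool.KSAT Pool.K2S Pool.PB Pool.KS6
  Pool.S6C Pool.S6U

/-- Two exceptional events. -/
theorem Pe_or_le {Ω : Type} [Fintype Ω] {p : Ω → ℝ} (hp : IsLaw p) {W W₁ W₂ : Ω → Prop}
    (h : ∀ ω, W ω → W₁ ω ∨ W₂ ω) : Pe p W ≤ Pe p W₁ + Pe p W₂ := by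
  classical
  rw [Pe_eq, Pe_eq, Pe_eq, ← Finset.sum_add_distrib]
  refine Finset.sum_le_sum fun ω _ => ?_
  have h0 := hp.nonneg ω
  by_cases hW : W ω
  · rw [if_pos hW]
    rcases h ω hW with h1 | h1
    · rw [if_pos h1]
      split_ifs <;> linarith
    · rw [if_pos h1]
      split_ifs <;> linarith
  · rw [if_neg hW]
    split_ifs <;> linarith

/-- The relation freezes the velocity, if its slope is large. -/
theorem frz_rel {d0 d1 al nu b' c' s' C M L Y : ℝ} (hM : 0 < M) (hL : 0 < L) (hY : 0 < Y)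
    (hC : 0 ≤ C) (h1 : |d1 - al * d0 - nu| ≤ C / L) (h3 : |c' * d0 + s' * d1 - b'| ≤ C / M)
    (hE : Y * (C * (1 / M + |s'| / L)) < |c' + s' * al|) :
    |d0 - (b' - s' * nu) / (c' + s' * al)| ≤ 1 / Y := by
  have hpos : 0 < |c' + s' * al| := lt_of_le_of_lt (by positivity) hE
  have hne : c' + s' * al ≠ 0 := abs_pos.1 hpos
  have e1 : d0 - (b' - s' * nu) / (c' + s' * al) =
      ((c' * d0 + s' * d1 - b') - s' * (d1 - al * d0 - nu)) / (c' + s' * al) := by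
    field_simp
    ring
  rw [e1, abs_div, div_le_div_iff₀ hpos hY, one_mul]
  have k3 : |(c' * d0 + s' * d1 - b') - s' * (d1 - al * d0 - nu)| ≤
      C * (1 / M + |s'| / L) := by
    refine (abs_sub _ _).trans ?_
    rw [abs_mul]
    have k4 : |s'| * |d1 - al * d0 - nu| ≤ |s'| * (C / L) :=
      mul_le_mul_of_nonneg_left h1 (abs_nonneg _)
    have e2 : C * (1 / M + |s'| / L) = C / M + |s'| * (C / L) := by ring
    rw [e2]
    linarith
  calc |(c' * d0 + s' * d1 - b') - s' * (d1 - al * d0 - nu)| * Y ≤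
        C * (1 / M + |s'| / L) * Y := mul_le_mul_of_nonneg_right k3 hY.le
    _ = Y * (C * (1 / M + |s'| / L)) := by ring
    _ ≤ |c' + s' * al| := hE.le

/-- The slope is known, if the coefficient `s'` is large. -/
theorem slope_rel {al c' s' C M L Y Z : ℝ} (hM : 0 < M) (hL : Z ≤ L) (hZ : 0 < Z) (hY : 0 < Y)
    (hC : 0 ≤ C) (hE : |c' + s' * al| ≤ Y * (C * (1 / M + |s'| / L))) (hs : Z / M < |s'|) :
    |al - -(c' / s')| ≤ Y * (2 * C) / Z := by
  have hL0 : 0 < L := lt_of_lt_of_le hZ hL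
  have hpos : 0 < |s'| := lt_trans (div_pos hZ hM) hs
  have hne : s' ≠ 0 := abs_pos.1 hpos
  have e1 : al - -(c' / s') = (c' + s' * al) / s' := by
    field_simp
    ring
  rw [e1, abs_div, div_le_div_iff₀ hpos hZ]
  have k1 : 1 / M ≤ |s'| / Z := by
    rw [div_le_div_iff₀ hM hZ, one_mul]
    rw [div_lt_iff₀ hM] at hs
    exact hs.le
  have k2 : |s'| / L ≤ |s'| / Z := div_le_div_of_nonneg_left hpos.le hZ hL
  calc |c' + s' * al| * Z ≤ Y * (C * (1 / M + |s'| / L)) * Z :=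
        mul_le_mul_of_nonneg_right hE hZ.le
    _ ≤ Y * (C * (|s'| / Z + |s'| / Z)) * Z :=
        mul_le_mul_of_nonneg_right (mul_le_mul_of_nonneg_left
          (mul_le_mul_of_nonneg_left (add_le_add k1 k2) hC) hY.le) hZ.le
    _ = Y * (2 * C) * |s'| := by
        field_simp
        ring

theorem c5_thm : C5Stmt := by
  classical
  intro S a R h₁ i₀ c₀ s₂ r D σ hC v hv0 hv1 hvp θ C hθ hC1
  have hC0 : 0 ≤ C := by linarith
  have hR1 := hC.row 1 one_pos le_rfl hC.D1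
  have hrot := hR1.rot v hv0 hv1
  have hrot0 : 0 ≤ (σ 1).rot v := num_nonneg hC.ne hrot
  have hpi1 : (σ 1).pi ≤ 1 := num_le_cap hC.ne zero_le_one hR1.pi
  obtain ⟨x, hx⟩ : ∃ x, x = min (min (θ / 8) (1 / 2)) h₁ := ⟨_, rfl⟩
  have hx0 : 0 < x := by
    rw [hx]
    exact lt_min (lt_min (by linarith) (by norm_num)) hC.h₁0
  have hx1 : x ≤ θ / 8 := by rw [hx]; exact (min_le_left _ _).trans (min_le_left _ _)
  have hx2 : x ≤ 1 / 2 := by rw [hx]; exact (min_le_left _ _).trans (min_le_right _ _)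
  have hx3 : x ≤ h₁ := by rw [hx]; exact min_le_right _ _
  obtain ⟨h, hh⟩ : ∃ h, h = min (θ / 2) ((σ 1).pi - (σ 1).rot v) := ⟨_, rfl⟩
  have hh0 : 0 < h := by
    rw [hh]
    exact lt_min (by linarith) (by linarith)
  have hh1 : h ≤ θ / 2 := by rw [hh]; exact min_le_left _ _
  have hh2 : (σ 1).rot v + h ≤ 1 := by
    have : h ≤ (σ 1).pi - (σ 1).rot v := by rw [hh]; exact min_le_right _ _
    linarith
  obtain ⟨τ₁, hτ₁, J₁, hnf⟩ := not_frz hC hx0 hx2 hx3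
  obtain ⟨τ₂, hτ₂, J₂, hno⟩ := num_no (fun s J F => Pool.KS6.qRot_hered i₀ 1 v s J F) hrot hh0
  obtain ⟨τ, hτ⟩ : ∃ τ, τ = min τ₁ τ₂ / 2 := ⟨_, rfl⟩
  have hτ0 : 0 < τ := by
    rw [hτ]
    exact half_pos (lt_min hτ₁ hτ₂)
  have hτa : τ + τ ≤ τ₁ := by
    rw [hτ, add_halves]
    exact min_le_left _ _
  have hτb : τ + τ ≤ τ₂ := by
    rw [hτ, add_halves]
    exact min_le_right _ _
  obtain ⟨J₃, hJ₃⟩ := exists_nat_gt (Real.log 2 / (τ / 2) + Real.logb 2 (4 * C ^ 2) / (θ / 4))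
  refine ⟨τ / 2, half_pos hτ0, Clp.of hτ0 (max (max J₁ J₂) J₃) ?_⟩
  intro J hJ F A hA ς hς hς0 L m hL al nu b b' c s c' s' hφ hψ hbd hon1 hon2 hon3
  have hJ1 : J₁ ≤ J := ((le_max_left _ _).trans (le_max_left _ _)).trans hJ
  have hJ2 : J₂ ≤ J := ((le_max_right _ _).trans (le_max_left _ _)).trans hJ
  have hJ3 : (J₃ : ℝ) ≤ J := by exact_mod_cast (le_max_right _ _).trans hJ
  have hl2 : 0 < Real.log 2 := Real.log_pos (by norm_num)
  have h4C : 1 ≤ 4 * C ^ 2 := by nlinarith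
  have hlC : 0 ≤ Real.logb 2 (4 * C ^ 2) := Real.logb_nonneg (by norm_num) h4C
  have hJa : Real.log 2 ≤ τ / 2 * J := by
    have h1 : Real.log 2 / (τ / 2) ≤ J := by
      have : 0 ≤ Real.logb 2 (4 * C ^ 2) / (θ / 4) := by positivity
      linarith
    rw [div_le_iff₀ (by positivity)] at h1
    linarith
  have hJb : 4 * C ^ 2 ≤ (2 : ℝ) ^ (θ / 4 * J) := by
    have h1 : Real.logb 2 (4 * C ^ 2) / (θ / 4) ≤ J := by
      have : 0 ≤ Real.log 2 / (τ / 2) := by positivity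
      linarith
    rw [div_le_iff₀ (by positivity)] at h1
    rw [← Real.logb_le_iff_le_rpow (by norm_num) (by positivity)]
    linarith
  obtain ⟨φ, hφ⟩ := hφ
  obtain ⟨ψ, hψ⟩ := hψ
  have hJ0 : (0 : ℝ) ≤ J := Nat.cast_nonneg J
  obtain ⟨y, hy⟩ : ∃ y, y = ⌊x * (J : ℝ)⌋₊ := ⟨_, rfl⟩
  have hyx : (y : ℝ) ≤ x * J := by
    rw [hy]
    exact Nat.floor_le (by positivity)
  obtain ⟨Z, hZ⟩ : ∃ Z : ℝ, Z = (2 : ℝ) ^ (θ * J) * (2 : ℝ) ^ ((σ 1).rot v * J) := ⟨_, rfl⟩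
  have hZ0 : 0 < Z := by rw [hZ]; positivity
  have hZe : Z = (2 : ℝ) ^ (((σ 1).rot v + θ) * J) := by
    rw [hZ, ← Real.rpow_add (by norm_num)]
    congr 1
    ring
  have hZL : Z ≤ (2 : ℝ) ^ L := by
    rw [hZe, ← Real.rpow_natCast]
    exact Real.rpow_le_rpow_of_exponent_le (by norm_num) hL
  have hM0 : (0 : ℝ) < 2 ^ m := by positivity
  have hL0 : (0 : ℝ) < 2 ^ L := by positivity
  have hY0 : (0 : ℝ) < 2 ^ y := by positivity
  have hYr : (2 : ℝ) ^ y ≤ 2 ^ (θ / 8 * J) := by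
    rw [← Real.rpow_natCast]
    refine Real.rpow_le_rpow_of_exponent_le (by norm_num) (hyx.trans ?_)
    exact mul_le_mul_of_nonneg_right hx1 hJ0
  -- the two events
  obtain ⟨E, hE⟩ : ∃ E : F.Ω → Prop, E = fun ω => (2 : ℝ) ^ y *
      (C * (1 / 2 ^ m + |s' ω| / 2 ^ L)) < |c' ω + s' ω * al (Fam.pt F ω)| := ⟨_, rfl⟩
  have key1 : Pe F.p (fun ω => A ω ∧ E ω) ≤ Real.exp (-(τ * J)) * Pe F.p A := by
    by_contra hcon
    push Not at hcon
    have hsub : Sub (fun ω => A ω ∧ E ω) A := fun ω hω => hω.1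
    have hS' := S.mono hτa (S.res hτ0.le hA hsub hcon.le)
    refine hnf J hJ1 F _ hS' ⟨fun u => (b' u.1 - (φ u.1).2.2 * nu u.1) /
      ((φ u.1).2.1 + (φ u.1).2.2 * al u.1), fun ω hω => ?_⟩
    obtain ⟨hAω, hlt⟩ := hω
    have f1 := hφ ω hAω
    have f2 : (φ (Fam.pt F ω)).2.1 = c' ω := by rw [← f1]
    have f3 : (φ (Fam.pt F ω)).2.2 = s' ω := by rw [← f1]
    have g1 := hon1 ω hAω
    have g3 := hon3 ω hAω
    rw [hς0] at g1 g3
    rw [hE] at hlt
    show |F.d ω i₀ - (b' (Fam.pt F ω) - (φ (Fam.pt F ω)).2.2 * nu (Fam.pt F ω)) /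
      ((φ (Fam.pt F ω)).2.1 + (φ (Fam.pt F ω)).2.2 * al (Fam.pt F ω))| ≤
        1 / 2 ^ (0 + ⌊x * (J : ℝ)⌋₊)
    rw [zero_add, ← hy, f2, f3]
    exact frz_rel hM0 hL0 hY0 hC0 g1 g3 hlt
  have key2 : Pe F.p (fun ω => A ω ∧ ¬ E ω ∧ Z / 2 ^ m < |s' ω|) ≤
      Real.exp (-(τ * J)) * Pe F.p A := by
    by_contra hcon
    push Not at hcon
    have hsub : Sub (fun ω => A ω ∧ ¬ E ω ∧ Z / 2 ^ m < |s' ω|) A := fun ω hω => hω.1
    have hexp : Real.exp (-(τ₂ * J)) ≤ Real.exp (-(τ * J)) := by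
      refine Real.exp_le_exp.2 ?_
      have : τ * J ≤ τ₂ * J := mul_le_mul_of_nonneg_right (by linarith) hJ0
      linarith
    refine hno J hJ2 F A (S.mono (by linarith) hA) _ hsub
      ((mul_le_mul_of_nonneg_right hexp (Pe_nonneg F.isLaw A)).trans hcon.le) (Or.inr ⟨hh2, ?_⟩)
    unfold qRot
    have hkey : ∀ ω, A ω ∧ ¬ E ω ∧ Z / 2 ^ m < |s' ω| →
        |al (Fam.pt F ω) - -(c' ω / s' ω)| ≤ 2 ^ y * (2 * C) / Z := by
      rintro ω ⟨h1, h2, h3⟩
      rw [hE] at h2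
      push Not at h2
      exact slope_rel hM0 hZL hZ0 hY0 hC0 h2 h3
    -- the precision
    have hprec : 2 ^ y * (2 * C ^ 2) / Z ≤ 1 / 2 ^ ⌊((σ 1).rot v + h) * (J : ℝ)⌋₊ := by
      rw [div_le_div_iff₀ hZ0 (by positivity), one_mul]
      have f1 : (2 : ℝ) ^ ⌊((σ 1).rot v + h) * (J : ℝ)⌋₊ ≤
          2 ^ (((σ 1).rot v + θ / 2) * J) := by
        rw [← Real.rpow_natCast]
        refine Real.rpow_le_rpow_of_exponent_le (by norm_num) ?_
        refine (Nat.floor_le (by positivity)).trans ?_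
        exact mul_le_mul_of_nonneg_right (by linarith) hJ0
      have e1 : Z = 2 ^ (θ / 8 * J) * 2 ^ (θ / 4 * J) * (2 : ℝ) ^ (θ / 8 * J) *
          2 ^ (((σ 1).rot v + θ / 2) * J) := by
        rw [hZe, ← Real.rpow_add (by norm_num), ← Real.rpow_add (by norm_num),
          ← Real.rpow_add (by norm_num)]
        congr 1
        ring
      have f2 : (1 : ℝ) ≤ 2 ^ (θ / 8 * J) := Real.one_le_rpow (by norm_num) (by positivity)
      have f3 : 2 * C ^ 2 ≤ (2 : ℝ) ^ (θ / 4 * J) := by nlinarith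
      rw [e1]
      calc (2 : ℝ) ^ y * (2 * C ^ 2) * 2 ^ ⌊((σ 1).rot v + h) * (J : ℝ)⌋₊ ≤
            2 ^ (θ / 8 * J) * 2 ^ (θ / 4 * J) * 2 ^ (((σ 1).rot v + θ / 2) * J) :=
            mul_le_mul (mul_le_mul hYr f3 (by positivity) (by positivity)) f1 (by positivity)
              (by positivity)
        _ = 2 ^ (θ / 8 * J) * 2 ^ (θ / 4 * J) * 1 * 2 ^ (((σ 1).rot v + θ / 2) * J) := by
            ring
        _ ≤ 2 ^ (θ / 8 * J) * 2 ^ (θ / 4 * J) * (2 : ℝ) ^ (θ / 8 * J) *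
            2 ^ (((σ 1).rot v + θ / 2) * J) :=
            mul_le_mul_of_nonneg_right (mul_le_mul_of_nonneg_left f2 (by positivity))
              (by positivity)
    have hr0 : (0 : ℝ) ≤ 1 / 2 ^ ⌊((σ 1).rot v + h) * (J : ℝ)⌋₊ := by positivity
    have hY1 : (1 : ℝ) ≤ 2 ^ y := one_le_pow₀ (by norm_num)
    have hCC : C ≤ C ^ 2 := by nlinarith
    have hprecL : 2 * C ^ 2 / 2 ^ L ≤ 1 / 2 ^ ⌊((σ 1).rot v + h) * (J : ℝ)⌋₊ := by
      refine le_trans ?_ hprec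
      refine (div_le_div_of_nonneg_left (by positivity) hZ0 hZL).trans ?_
      refine div_le_div_of_nonneg_right ?_ hZ0.le
      nlinarith [sq_nonneg C]
    have hς2 : Function.Surjective ς := Finite.injective_iff_surjective.1 hς
    have n10 : ς 1 ≠ ς 0 := fun e => by have := hς e; simp at this
    have n20 : ς 2 ≠ ς 0 := fun e => by have := hς e; simp at this
    have n21 : ς 2 ≠ ς 1 := fun e => by have := hς e; simp at this
    rw [ptq_one F]
    refine ⟨fun u j => if j = ς 0 then 1 else if j = ς 1 then al u else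
        -((φ u).1.1 + (φ u).1.2 * al u),
      fun u j => if j = ς 0 then 0 else if j = ς 1 then nu u else b u - (φ u).1.2 * nu u,
      fun z j => if j = ς 0 then 1 else if j = ς 1 then -((ψ z).2.1 / (ψ z).2.2) else
        -((ψ z).1.1 + (ψ z).1.2 * -((ψ z).2.1 / (ψ z).2.2)), ?_, ?_⟩
    · rintro ω ⟨hAω, -, -⟩ j
      obtain ⟨b1, b2, b3⟩ := hbd ω hAω
      have g1 := hon1 ω hAω
      have g2 := hon2 ω hAω
      have f1 := hφ ω hAω
      have f2 : (φ (Fam.pt F ω)).1.1 = c ω := by rw [← f1]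
      have f3 : (φ (Fam.pt F ω)).1.2 = s ω := by rw [← f1]
      obtain ⟨i, rfl⟩ := hς2 j
      rw [← hς0]
      fin_cases i
      · show |F.d ω (ς 0) - (if ς 0 = ς 0 then (1 : ℝ) else if ς 0 = ς 1 then _ else _) *
          F.d ω (ς 0) - (if ς 0 = ς 0 then (0 : ℝ) else if ς 0 = ς 1 then _ else _)| ≤ _
        rw [if_pos rfl, if_pos rfl, one_mul, sub_self, sub_zero, abs_zero]
        exact hr0
      · show |F.d ω (ς 1) - (if ς 1 = ς 0 then (1 : ℝ) else if ς 1 = ς 1 then _ else _) *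
          F.d ω (ς 0) - (if ς 1 = ς 0 then (0 : ℝ) else if ς 1 = ς 1 then _ else _)| ≤ _
        rw [if_neg n10, if_pos rfl, if_neg n10, if_pos rfl]
        refine g1.trans (le_trans ?_ hprecL)
        refine div_le_div_of_nonneg_right ?_ hL0.le
        nlinarith
      · show |F.d ω (ς 2) - (if ς 2 = ς 0 then (1 : ℝ) else if ς 2 = ς 1 then _ else _) *
          F.d ω (ς 0) - (if ς 2 = ς 0 then (0 : ℝ) else if ς 2 = ς 1 then _ else _)| ≤ _
        rw [if_neg n20, if_neg n21, if_neg n20, if_neg n21]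
        show |F.d ω (ς 2) - -((φ (Fam.pt F ω)).1.1 + (φ (Fam.pt F ω)).1.2 *
          al (Fam.pt F ω)) * F.d ω (ς 0) -
          (b (Fam.pt F ω) - (φ (Fam.pt F ω)).1.2 * nu (Fam.pt F ω))| ≤ _
        rw [f2, f3]
        have e1 : F.d ω (ς 2) - -(c ω + s ω * al (Fam.pt F ω)) * F.d ω (ς 0) -
            (b (Fam.pt F ω) - s ω * nu (Fam.pt F ω)) =
            (c ω * F.d ω (ς 0) + s ω * F.d ω (ς 1) + F.d ω (ς 2) - b (Fam.pt F ω)) -
            s ω * (F.d ω (ς 1) - al (Fam.pt F ω) * F.d ω (ς 0) - nu (Fam.pt F ω)) := by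
          ring
        rw [e1]
        refine (abs_sub _ _).trans ?_
        rw [abs_mul]
        have k1 : |s ω| * |F.d ω (ς 1) - al (Fam.pt F ω) * F.d ω (ς 0) -
            nu (Fam.pt F ω)| ≤ C * (C / 2 ^ L) := mul_le_mul b2 g1 (abs_nonneg _) hC0
        refine le_trans (add_le_add g2 k1) (le_trans ?_ hprecL)
        have e2 : C / (2 : ℝ) ^ L + C * (C / 2 ^ L) = (C + C ^ 2) / 2 ^ L := by ring
        rw [e2]
        refine div_le_div_of_nonneg_right ?_ hL0.le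
        linarith
    · rintro ω hω j
      have hAω := hω.1
      obtain ⟨b1, b2, b3⟩ := hbd ω hAω
      have f1 := hφ ω hAω
      have f2 : (φ (Fam.pt F ω)).1.1 = c ω := by rw [← f1]
      have f3 : (φ (Fam.pt F ω)).1.2 = s ω := by rw [← f1]
      have g1 := hψ ω hAω
      have g2 : (ψ (slam F ⌊(v : ℝ) * J⌋₊ ω)).1.1 = c ω := by rw [← g1]
      have g3 : (ψ (slam F ⌊(v : ℝ) * J⌋₊ ω)).1.2 = s ω := by rw [← g1]
      have g4 : (ψ (slam F ⌊(v : ℝ) * J⌋₊ ω)).2.1 = c' ω := by rw [← g1]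
      have g5 : (ψ (slam F ⌊(v : ℝ) * J⌋₊ ω)).2.2 = s' ω := by rw [← g1]
      have k1 := hkey ω hω
      obtain ⟨i, rfl⟩ := hς2 j
      fin_cases i
      · show |(if ς 0 = ς 0 then (1 : ℝ) else if ς 0 = ς 1 then _ else _) -
          (if ς 0 = ς 0 then (1 : ℝ) else if ς 0 = ς 1 then _ else _)| ≤ _
        rw [if_pos rfl, if_pos rfl, sub_self, abs_zero]
        exact hr0
      · show |(if ς 1 = ς 0 then (1 : ℝ) else if ς 1 = ς 1 then _ else _) -
          (if ς 1 = ς 0 then (1 : ℝ) else if ς 1 = ς 1 then _ else _)| ≤ _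
        rw [if_neg n10, if_pos rfl, if_neg n10, if_pos rfl]
        show |al (Fam.pt F ω) - -((ψ (slam F ⌊(v : ℝ) * J⌋₊ ω)).2.1 /
          (ψ (slam F ⌊(v : ℝ) * J⌋₊ ω)).2.2)| ≤ _
        rw [g4, g5]
        refine k1.trans (le_trans ?_ hprec)
        refine div_le_div_of_nonneg_right ?_ hZ0.le
        refine mul_le_mul_of_nonneg_left ?_ hY0.le
        linarith
      · show |(if ς 2 = ς 0 then (1 : ℝ) else if ς 2 = ς 1 then _ else _) -
          (if ς 2 = ς 0 then (1 : ℝ) else if ς 2 = ς 1 then _ else _)| ≤ _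
        rw [if_neg n20, if_neg n21, if_neg n20, if_neg n21]
        show |-((φ (Fam.pt F ω)).1.1 + (φ (Fam.pt F ω)).1.2 * al (Fam.pt F ω)) -
          -((ψ (slam F ⌊(v : ℝ) * J⌋₊ ω)).1.1 + (ψ (slam F ⌊(v : ℝ) * J⌋₊ ω)).1.2 *
            -((ψ (slam F ⌊(v : ℝ) * J⌋₊ ω)).2.1 / (ψ (slam F ⌊(v : ℝ) * J⌋₊ ω)).2.2))| ≤ _
        rw [f2, f3, g2, g3, g4, g5]
        have e1 : -(c ω + s ω * al (Fam.pt F ω)) - -(c ω + s ω * -(c' ω / s' ω)) =
            -(s ω * (al (Fam.pt F ω) - -(c' ω / s' ω))) := by ring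
        rw [e1, abs_neg, abs_mul]
        refine (mul_le_mul b2 k1 (abs_nonneg _) hC0).trans (le_trans (le_of_eq ?_) hprec)
        ring
  -- the end
  have hfin : Pe F.p (fun ω => A ω ∧
      ((2 : ℝ) ^ (θ * J) * (2 : ℝ) ^ ((σ 1).rot v * J) / 2 ^ m < |s' ω| ∨
        (2 : ℝ) ^ (θ * J) / 2 ^ m < |c' ω + s' ω * al (Fam.pt F ω)|)) ≤
      Pe F.p (fun ω => A ω ∧ E ω) +
        Pe F.p (fun ω => A ω ∧ ¬ E ω ∧ Z / 2 ^ m < |s' ω|) := by
    refine Pe_or_le F.isLaw ?_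
    rintro ω ⟨hAω, hor⟩
    by_cases hEω : E ω
    · exact Or.inl ⟨hAω, hEω⟩
    by_cases hs : Z / 2 ^ m < |s' ω|
    · exact Or.inr ⟨hAω, hEω, hs⟩
    exfalso
    rcases hor with h1 | h1
    · rw [← hZ] at h1
      exact hs h1
    · rw [hE] at hEω
      push Not at hEω hs
      have k1 : |s' ω| / 2 ^ L ≤ 1 / 2 ^ m := by
        rw [div_le_div_iff₀ hL0 hM0, one_mul]
        rw [le_div_iff₀ hM0] at hs
        exact hs.trans hZL
      have k2 : (2 : ℝ) ^ y * (C * (1 / 2 ^ m + |s' ω| / 2 ^ L)) ≤ 2 ^ (θ * J) / 2 ^ m := by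
        have e1 : (2 : ℝ) ^ (θ * J) = 2 ^ (θ / 8 * J) * 2 ^ (θ / 4 * J) *
            2 ^ (5 * θ / 8 * J) := by
          rw [← Real.rpow_add (by norm_num), ← Real.rpow_add (by norm_num)]
          congr 1
          ring
        have f2 : (1 : ℝ) ≤ 2 ^ (5 * θ / 8 * J) :=
          Real.one_le_rpow (by norm_num) (by positivity)
        have f3 : 2 * C ≤ (2 : ℝ) ^ (θ / 4 * J) := by nlinarith
        calc (2 : ℝ) ^ y * (C * (1 / 2 ^ m + |s' ω| / 2 ^ L)) ≤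
              2 ^ y * (C * (1 / 2 ^ m + 1 / 2 ^ m)) :=
              mul_le_mul_of_nonneg_left (mul_le_mul_of_nonneg_left (by linarith) hC0) hY0.le
          _ = 2 ^ y * (2 * C) * 1 / 2 ^ m := by ring
          _ ≤ 2 ^ (θ / 8 * J) * 2 ^ (θ / 4 * J) * 2 ^ (5 * θ / 8 * J) / 2 ^ m := by
              refine div_le_div_of_nonneg_right ?_ hM0.le
              exact mul_le_mul (mul_le_mul hYr f3 (by positivity) (by positivity)) f2
                zero_le_one (by positivity)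
          _ = 2 ^ (θ * J) / 2 ^ m := by rw [e1]
      linarith
  refine hfin.trans ((add_le_add key1 key2).trans ?_)
  have hP0 : 0 ≤ Pe F.p A := Pe_nonneg F.isLaw A
  have e1 : Real.exp (-(τ / 2 * J)) = Real.exp (-(τ * J)) * Real.exp (τ / 2 * J) := by
    rw [← Real.exp_add]
    congr 1
    ring
  have e2 : (2 : ℝ) ≤ Real.exp (τ / 2 * J) := by
    rw [← Real.log_le_iff_le_exp (by norm_num)]
    exact hJa
  rw [e1]
  have e3 : 0 ≤ Real.exp (-(τ * J)) * Pe F.p A := by positivity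
  nlinarith [e3, e2]

end Pool.S6V
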